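import Pool.Agent.Helper43.CX.Final

/-!
# MP_f22a19_gt: closed affine manifolds with positive simplicial volume, the statement
-/

set_option autoImplicit false

namespace Pool.CX

open Pool.SV Pool.Agent.Helper43.CX

/-- `M` is a closed affine manifold of dimension `n`: it is compact, Hausdorff, second countable and
connected, and all transition maps between the charts of its atlas are restrictions of affine
automorphisms of `ℝⁿ`. -/
structure IsClosedAffine (n : ℕ) (M : Type*) [TopologicalSpace M] [ChartedSpace (Fin n → ℝ) M] :
    Prop where
  compact : CompactSpace M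
  t2 : T2Space M
  second : SecondCountableTopology M
  conn : ConnectedSpace M
  affine : ∀ e ∈ atlas (Fin n → ℝ) M, ∀ e' ∈ atlas (Fin n → ℝ) M,
    ∃ A : (Fin n → ℝ) ≃ᵃ[ℝ] (Fin n → ℝ), ∀ x ∈ e.source ∩ e'.source, e' x = A (e x)

/-- The topological space `M` has a fundamental class in dimension `n + 1` (its integral homology in
this dimension is infinite cyclic), and the simplicial volume is positive. -/
def HasPositiveVolume (n : ℕ) (M : Type*) [TopologicalSpace M] : Prop :=
  (∃ z : ChainC ℤ M (n + 1), IsFund z) ∧
    ∀ z : ChainC ℤ M (n + 1), IsFund z → 0 < simplicialVolume z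

/-- There is a closed (orientable) affine 3-manifold with positive simplicial volume. -/
def Counterexample : Prop :=
  ∃ (M : Type) (_ : TopologicalSpace M) (_ : ChartedSpace (Fin 3 → ℝ) M),
    IsClosedAffine 3 M ∧ HasPositiveVolume 2 M

end Pool.CX
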