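import Pool.Agent.Helper79.CX.Cert
import Pool.Agent.Helper26.PM.Pos2
import Pool.Agent.Helper47.CX.Stmt

/-!
# MP_f22a19_gt, project CX: assembly, the topological part

Triangulation certificate (`CombT`), labels and a bounded cocycle give positivity of the simplicial
volume.
-/

set_option autoImplicit false

namespace Pool.CX

open Pool.SV Pool.Agent.Helper43.CX

section

variable {V : Type*} [Fintype V] [LinearOrder V] [Nonempty V]

/-- the affine singular simplex with the given vertices, as a map to `V → ℝ` -/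
theorem simplex_mem {T : List (Tet V)} (S : Set (V → ℝ))
    (hS : ∀ x, x ∈ S ↔ x ∈ stdSimplex ℝ V ∧ ∃ s ∈ facT T, ∀ v, x v ≠ 0 → v ∈ s)
    {t : Tet V} (ht : t ∈ T) (x : stdSimplex ℝ (Fin 4)) :
    (fun v => ∑ i, if tupT t i = v then x.1 i else 0) ∈ S := by
  classical
  rw [hS]
  refine ⟨⟨fun v => Finset.sum_nonneg fun i _ => ?_, ?_⟩, setT t, ?_, fun v hv => ?_⟩
  · split_ifs
    · exact x.2.1 i
    · exact le_rfl
  · rw [Finset.sum_comm]
    simp only [Finset.sum_ite_eq, Finset.mem_univ, if_true]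
    exact x.2.2
  · exact List.mem_toFinset.2 (List.mem_map_of_mem ht)
  · by_contra h
    apply hv
    refine Finset.sum_eq_zero fun i _ => if_neg ?_
    rintro rfl
    apply h
    rw [setT_eq]
    exact Finset.mem_image_of_mem _ (Finset.mem_univ _)

/-- the affine singular simplices -/
noncomputable def tau {T : List (Tet V)} (S : Set (V → ℝ))
    (hS : ∀ x, x ∈ S ↔ x ∈ stdSimplex ℝ V ∧ ∃ s ∈ facT T, ∀ v, x v ≠ 0 → v ∈ s)
    (t : Tet V) (ht : t ∈ T) : Sing ↥S 3 where
  toFun x := ⟨fun v => ∑ i, if tupT t i = v then x.1 i else 0, simplex_mem S hS ht x⟩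
  continuous_toFun := by
    refine Continuous.subtype_mk (continuous_pi fun v => continuous_finsetSum _ fun i _ => ?_) _
    split_ifs
    · exact (continuous_apply i).comp continuous_subtype_val
    · exact continuous_const

theorem toReal_sum {M : Type*} [TopologicalSpace M] {q : ℕ} {ι : Type*} (s : Finset ι)
    (f : ι → ChainC ℤ M q) : toReal (∑ i ∈ s, f i) = ∑ i ∈ s, toReal (f i) := by
  classical
  induction s using Finset.induction_on with
  | empty => simp [toReal]
  | insert a s ha ih => rw [Finset.sum_insert ha, toReal_add, ih, Finset.sum_insert ha]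

theorem sum_map_get {α A : Type*} [AddCommMonoid A] (T : List α) (f : α → A) :
    (T.map f).sum = ∑ i : Fin T.length, f (T.get i) := by
  rw [← List.sum_ofFn]
  congr 1
  apply List.ext_get
  · simp
  · intro i h1 h2
    simp

/-- **Positivity** from a triangulation, labels and a bounded cocycle. -/
theorem positive {T : List (Tet V)} (hT : CombT T) (S : Set (V → ℝ))
    (hS : ∀ x, x ∈ S ↔ x ∈ stdSimplex ℝ V ∧ ∃ s ∈ facT T, ∀ v, x v ≠ 0 → v ∈ s)
    {G : Type*} [Group G] (g : V → V → G)
    (hg : ∀ t ∈ T, ∀ i ∈ setT t, ∀ j ∈ setT t, ∀ k ∈ setT t, g i j * g j k = g i k)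
    (F : (Fin 4 → V × G) → ℝ) (C : ℝ) (hC : ∀ y, |F y| ≤ C)
    (hinv : ∀ (a : G) (y : Fin 4 → V × G), F (fun i => ((y i).1, a * (y i).2)) = F y)
    (hcoc : ∀ y : Fin 5 → V × G,
      ∑ i : Fin 5, (-1 : ℝ) ^ (i : ℕ) * F (fun j => y (i.succAbove j)) = 0)
    (hval : (T.map (fun t => (sg t.1 : ℝ) *
      F (fun i => (tupT t i, g (tupT t 0) (tupT t i))))).sum ≠ 0) :
    HasPositiveVolume 2 ↥S := by
  classical
  obtain ⟨t₀, ht₀⟩ : ∃ t₀, t₀ ∈ T := List.exists_mem_of_ne_nil T hT.ne
  let τ : Tet V → Sing ↥S 3 := fun t => if ht : t ∈ T then tau S hS t ht else tau S hS t₀ ht₀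
  have hτ : ∀ t ∈ T, ∀ x v, (τ t x).1 v = ∑ i, if tupT t i = v then x i else 0 := by
    intro t ht x v
    simp only [τ, dif_pos ht]
    rfl
  obtain ⟨h0, hgen, hfree⟩ := hT.fund S hS τ hτ
  set z₀ : ChainC ℤ ↥S 3 := (T.map (fun t => Finsupp.single (τ t) (sg t.1))).sum with hz₀
  have hz₀' : toReal z₀ = ∑ i : Fin T.length,
      ((sg (T.get i).1 : ℤ) : ℝ) • Finsupp.single (τ (T.get i)) (1 : ℝ) := by
    rw [hz₀, sum_map_get, toReal_sum]
    refine Finset.sum_congr rfl fun i _ => ?_
    rw [toReal_single, Finsupp.smul_single, smul_eq_mul, mul_one]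
  set v : ℝ := (T.map (fun t => (sg t.1 : ℝ) *
      F (fun i => (tupT t i, g (tupT t 0) (tupT t i))))).sum with hv
  have hC0 : 0 ≤ C := by
    have i0 : Fin 4 → V × G := fun _ => (Classical.arbitrary V, 1)
    exact (abs_nonneg _).trans (hC i0)
  have hbound : ∀ b : Chain ↥S 4, |v| ≤ C * nrm (toReal z₀ + bd ↥S 3 b) := by
    intro b
    have := Pool.Agent.Helper26.PM.lower_bound_set S (K := {s | s ∈ facT T}) hS g
      (by
        intro s hs
        obtain ⟨t, ht, rfl⟩ := List.mem_map.1 (List.mem_toFinset.1 hs)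
        exact hg t ht) F C hC hinv hcoc (Finset.univ : Finset (Fin T.length))
      (fun i => ((sg (T.get i).1 : ℤ) : ℝ)) (fun i => tupT (T.get i))
      (by
        intro i
        refine ⟨setT (T.get i), List.mem_toFinset.2 (List.mem_map_of_mem (List.get_mem _ _)), ?_⟩
        intro j
        rw [setT_eq]
        exact Finset.mem_image_of_mem _ (Finset.mem_univ _))
      (fun i => τ (T.get i)) (fun i t v => hτ _ (List.get_mem _ _) t v) b
    rw [hz₀', hv, sum_map_get]
    exact this
  have hv0 : 0 < |v| := abs_pos.2 hval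
  have hCpos : 0 < C := by
    rcases hC0.lt_or_eq with h | h
    · exact h
    · exfalso
      have := hbound 0
      rw [← h, zero_mul] at this
      linarith
  obtain ⟨h1, h2⟩ := pos_of_bound z₀ h0
    (fun w hw => by
      obtain ⟨m, b, hb⟩ := hgen w hw
      exact ⟨m, b, by rw [← sub_eq_iff_eq_add']; exact hb⟩)
    hfree (|v| / C) (div_pos hv0 hCpos)
    (fun y b hy => by
      rw [div_le_iff₀ hCpos, mul_comm]
      have e : y = toReal z₀ + bd ↥S 3 b := by
        rw [← sub_eq_iff_eq_add']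
        exact hy
      rw [e]
      exact hbound b)
  exact ⟨⟨z₀, h1⟩, h2⟩

end

end Pool.CX
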