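import Pool.Agent.Helper66.AF.Main
import Pool.Agent.Helper69.CX.Comb
import Pool.Agent.Helper69.CX.Double
import Pool.Agent.Helper47.CX.Asm

/-!
# MP_f22a19_gt, project CX: assembly, the final step

An affine complex with a triangulation certificate, labels of a double and a value different from
zero give a closed affine 3-manifold with positive simplicial volume.
-/

set_option autoImplicit false

namespace Pool.CX

open Pool.SV Pool.Agent.Helper43.CX Pool.Agent.Helper66.AF

/-- The charted space structure given by finitely many charts. -/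
theorem exists_chartedSpace {ι M H : Type*} [TopologicalSpace M] [TopologicalSpace H]
    (c : ι → OpenPartialHomeomorph M H) (hc : ∀ x, ∃ i, x ∈ (c i).source) :
    ∃ cs : ChartedSpace H M, cs.atlas = Set.range c := by
  choose f hf using hc
  exact ⟨{ atlas := Set.range c
           chartAt := fun x => c (f x)
           mem_chart_source := hf
           chart_mem_atlas := fun x => ⟨f x, rfl⟩ }, rfl⟩

/-- The realization of an affine complex is a closed affine 3-manifold. -/
theorem closed_of_complex {V : Type*} [Fintype V] [DecidableEq V] [Nonempty V]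
    {T : List (Pool.Agent.Helper66.AF.Tet V)} {p : V → V → E3} (h : IsAffineComplex T p) :
    ∃ _ : ChartedSpace (Fin 3 → ℝ) (geo T), IsClosedAffine 3 (geo T) := by
  obtain ⟨h1, h2, h3, h4, c, -, -, h5, h6⟩ := closedAffine h
  obtain ⟨cs, hcs⟩ := exists_chartedSpace c h5
  refine ⟨cs, h1, h2, h3, h4, ?_⟩
  intro e he e' he'
  rw [show atlas (Fin 3 → ℝ) (geo T) = Set.range c from hcs] at he he'
  obtain ⟨v, rfl⟩ := he
  obtain ⟨w, rfl⟩ := he'
  exact h6 v w

/-- The realization does not depend on the order of the vertices of the facets. -/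
theorem mem_geo_orient {V : Type*} [Fintype V] [LinearOrder V] [Nonempty V] (T : List (Tet V))
    (x : V → ℝ) : x ∈ geo (T.map Helper69.CX.orient) ↔
      x ∈ stdSimplex ℝ V ∧ ∃ s ∈ facT T, ∀ v, x v ≠ 0 → v ∈ s := by
  have key : ∀ t : Tet V, ∀ v, v ∈ verts (Helper69.CX.orient t) ↔ v ∈ setT t := by
    intro t v
    obtain ⟨s, a, b, c, d⟩ := t
    cases s
    · simp only [Helper69.CX.orient, verts, setT, Bool.false_eq_true, if_false, List.mem_cons,
        List.not_mem_nil, or_false, Finset.mem_insert, Finset.mem_singleton]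
      tauto
    · simp only [Helper69.CX.orient, verts, setT, if_true, List.mem_cons,
        List.not_mem_nil, or_false, Finset.mem_insert, Finset.mem_singleton]
  constructor
  · rintro ⟨h1, h2, t', ht', h3⟩
    obtain ⟨t, ht, rfl⟩ := List.mem_map.1 ht'
    exact ⟨⟨h1, h2⟩, setT t, List.mem_toFinset.2 (List.mem_map_of_mem ht),
      fun v hv => (key t v).1 (h3 v hv)⟩
  · rintro ⟨⟨h1, h2⟩, s, hs, h3⟩
    obtain ⟨t, ht, rfl⟩ := List.mem_map.1 (List.mem_toFinset.1 hs)
    exact ⟨h1, h2, _, List.mem_map_of_mem ht, fun v hv => (key t v).2 (h3 v hv)⟩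

section labels

open Helper69.CX

variable {V : Type} [Fintype V] [LinearOrder V] [Nonempty V]

/-- **Main assembly.** `T` is the list of the signed facets, `p` the positions of the vertices in
the charts, `D` the projective labels of the double. -/
theorem counterexample_of {T : List (Pool.CX.Tet V)} (hT : CombT T) {p : V → V → E3}
    (hp : IsAffineComplex (T.map orient) p)
    {P U : Type*} [DecidableEq P] {Vol : P → P → P → P → ℝ} (hV : VZero Vol)
    {C : ℝ} (hC : ∀ a b c d, |Vol a b c d| ≤ C)
    (hcoc : ∀ a b c d e, Vol b c d e - Vol a c d e + Vol a b d e - Vol a b c e + Vol a b c d = 0)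
    (D : DData P U V Vol)
    (hg : ∀ t ∈ T, ∀ i ∈ setT t, ∀ j ∈ setT t, ∀ k ∈ setT t, D.g i j * D.g j k = D.g i k)
    (hval : (T.map (fun t => (sg t.1 : ℝ) *
      D.F (tupT t 0, D.g (tupT t 0) (tupT t 0)) (tupT t 1, D.g (tupT t 0) (tupT t 1))
        (tupT t 2, D.g (tupT t 0) (tupT t 2)) (tupT t 3, D.g (tupT t 0) (tupT t 3)))).sum ≠ 0) :
    Counterexample := by
  obtain ⟨cs, hcs⟩ := closed_of_complex hp
  refine ⟨geo (T.map orient), inferInstance, cs, hcs, ?_⟩
  refine positive hT (geo (T.map orient)) (mem_geo_orient T) D.g hg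
    (fun y => D.F (y 0) (y 1) (y 2) (y 3)) C (fun y => D.F_bdd hV hC _ _ _ _)
    (fun a y => D.F_inv a _ _ _ _) (fun y => ?_) hval
  have h := D.F_cocycle hV hcoc (y 0) (y 1) (y 2) (y 3) (y 4)
  rw [← h, Fin.sum_univ_five]
  have s : ∀ (i : Fin 5) (j : Fin 4), y (i.succAbove j) = y (i.succAbove j) := fun _ _ => rfl
  simp [Fin.succAbove, Fin.lt_def]
  ring_nf

end labels

end Pool.CX
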