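import Pool.Agent.Helper66.AF.Defs

/-!
# Project CX (MP_f22a19_gt): positions in the double

`W` is the vertex set of the double, `fold : W → U` the folding map onto the vertex set of one copy
and `side w` says that `w` is an interior vertex of the second copy. `ρ u u'` is the affine map
which takes the chart of `u'` to the chart of `u` and `P u` the position of `u` in its own chart.
All boundary vertices lie in the plane `z = 0` of their own chart and the second copy is the image
of the first one under the reflection `sigma` in this plane.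
-/

set_option autoImplicit false

namespace Pool.CX

open Pool.Agent.Helper66.AF

/-- the affine group of `ℝ³` -/
abbrev Aff3 : Type := E3 ≃ᵃ[ℝ] E3

/-- the reflection in the plane `z = 0`, as a linear map -/
def sigmaL : E3 →ₗ[ℝ] E3 where
  toFun x := ![x 0, x 1, -x 2]
  map_add' x y := by
    ext i
    fin_cases i <;> simp [add_comm]
  map_smul' c x := by
    ext i
    fin_cases i <;> simp

theorem sigmaL_apply (x : E3) : sigmaL x = ![x 0, x 1, -x 2] := rfl

theorem sigmaL_sigmaL (x : E3) : sigmaL (sigmaL x) = x := by
  ext i
  fin_cases i <;> simp [sigmaL_apply]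

theorem sigmaL_eq {x : E3} (h : x 2 = 0) : sigmaL x = x := by
  ext i
  fin_cases i <;> simp [sigmaL_apply, h]

theorem det3_sigmaL (a b c : E3) : det3 (sigmaL a) (sigmaL b) (sigmaL c) = -det3 a b c := by
  simp only [det3, sigmaL_apply, Matrix.cons_val_zero, Matrix.cons_val_one, Matrix.cons_val]
  ring

section Double

variable {U W : Type*}

/-- the position of `u'` in the chart of `u`, centred at `u` -/
def pN (ρ : U → U → Aff3) (P : U → E3) (u u' : U) : E3 := ρ u u' (P u') - P u

/-- the position of `w'` in the chart of `w`, centred at `w`, in the double -/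
def pW (ρ : U → U → Aff3) (P : U → E3) (fold : W → U) (side : W → Bool) (w w' : W) : E3 :=
  if side w || side w' then sigmaL (pN ρ P (fold w) (fold w')) else pN ρ P (fold w) (fold w')

/-- The conditions on the labels: cocycle condition on the facets of the double, and the labels
between boundary vertices commute with the reflection. -/
structure Labels (T : List (Tet W)) (fold : W → U) (side : W → Bool) (ρ : U → U → Aff3)
    (P : U → E3) : Prop where
  one : ∀ u, ρ u u = 1
  coc : ∀ t ∈ T, ∀ a ∈ verts t, ∀ b ∈ verts t, ∀ c ∈ verts t,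
    ρ (fold a) (fold b) * ρ (fold b) (fold c) = ρ (fold a) (fold c)
  /-- in the facets of the second copy the vertices `w` with `side w = false` are boundary
  vertices: they lie in the plane `z = 0`, and the labels between two of them commute with the
  reflection -/
  plane : ∀ t ∈ T, (∃ c ∈ verts t, side c = true) → ∀ a ∈ verts t, side a = false →
    P (fold a) 2 = 0
  comm : ∀ t ∈ T, (∃ c ∈ verts t, side c = true) → ∀ a ∈ verts t, ∀ b ∈ verts t,
    side a = false → side b = false → ∀ x, ρ (fold a) (fold b) (sigmaL x)
      = sigmaL (ρ (fold a) (fold b) x)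

variable {T : List (Tet W)} {fold : W → U} {side : W → Bool} {ρ : U → U → Aff3} {P : U → E3}

/-- the change of charts from `u` to `u'`, on one copy -/
noncomputable def chg (ρ : U → U → Aff3) (P : U → E3) (u u' : U) : E3 →ᵃ[ℝ] E3 :=
  ((AffineEquiv.constVAdd ℝ E3 (P u)).trans
    ((ρ u' u).trans (AffineEquiv.constVAdd ℝ E3 (-P u')))).toAffineMap

theorem chg_apply (u u' : U) (x : E3) : chg ρ P u u' x = ρ u' u (x + P u) - P u' := by
  simp only [chg, AffineEquiv.coe_toAffineMap, AffineEquiv.trans_apply,
    AffineEquiv.constVAdd_apply, vadd_eq_add]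
  rw [add_comm (P u) x, neg_add_eq_sub]

/-- In a facet of the second copy all the positions are reflected. -/
theorem Labels.pW_second (h : Labels T fold side ρ P) {t : Tet W} (ht : t ∈ T)
    (hc : ∃ c ∈ verts t, side c = true) {a b : W} (ha : a ∈ verts t) (hb : b ∈ verts t) :
    pW ρ P fold side a b = sigmaL (pN ρ P (fold a) (fold b)) := by
  unfold pW
  split_ifs with hs
  · rfl
  · have h1 : side a = false ∧ side b = false := by simpa using hs
    have h2 := h.comm t ht hc a ha b hb h1.1 h1.2 (P (fold b))
    rw [sigmaL_eq (h.plane t ht hc b hb h1.2)] at h2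
    unfold pN
    rw [map_sub, ← h2, sigmaL_eq (h.plane t ht hc a ha h1.1)]

/-- In a facet of the first copy the positions are not reflected. -/
theorem pW_first {t : Tet W} (hc : ¬ ∃ c ∈ verts t, side c = true) {a b : W}
    (ha : a ∈ verts t) (hb : b ∈ verts t) :
    pW ρ P fold side a b = pN ρ P (fold a) (fold b) := by
  unfold pW
  rw [if_neg]
  intro h
  rcases Bool.or_eq_true_iff.1 h with h | h
  · exact hc ⟨a, ha, h⟩
  · exact hc ⟨b, hb, h⟩

theorem Labels.chg_pN (h : Labels T fold side ρ P) {t : Tet W} (ht : t ∈ T) {a b c : W}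
    (ha : a ∈ verts t) (hb : b ∈ verts t) (hc : c ∈ verts t) :
    chg ρ P (fold a) (fold b) (pN ρ P (fold a) (fold c)) = pN ρ P (fold b) (fold c) := by
  rw [chg_apply]
  unfold pN
  rw [sub_add_cancel]
  have := h.coc t ht b hb a ha c hc
  rw [← this]
  rfl

theorem Labels.center (h : Labels T fold side ρ P) (w : W) : pW ρ P fold side w w = 0 := by
  have : pN ρ P (fold w) (fold w) = 0 := by
    unfold pN
    rw [h.one]
    exact sub_self _
  unfold pW
  rw [this, map_zero, ite_self]

theorem Labels.trans (h : Labels T fold side ρ P) (v w : W) :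
    ∃ A : E3 →ᵃ[ℝ] E3, ∀ t ∈ T, v ∈ verts t → w ∈ verts t → ∀ u ∈ verts t,
      A (pW ρ P fold side v u) = pW ρ P fold side w u := by
  by_cases hs : (side v || side w) = true
  · refine ⟨sigmaL.toAffineMap.comp ((chg ρ P (fold v) (fold w)).comp sigmaL.toAffineMap), ?_⟩
    intro t ht hv hw u hu
    have hc : ∃ c ∈ verts t, side c = true := by
      rcases Bool.or_eq_true_iff.1 hs with h | h
      · exact ⟨v, hv, h⟩
      · exact ⟨w, hw, h⟩
    rw [h.pW_second ht hc hv hu, h.pW_second ht hc hw hu]
    simp only [AffineMap.comp_apply, LinearMap.coe_toAffineMap, sigmaL_sigmaL]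
    rw [h.chg_pN ht hv hw hu]
  · have h1 : side v = false ∧ side w = false := by simpa using hs
    refine ⟨chg ρ P (fold v) (fold w), ?_⟩
    intro t ht hv hw u hu
    by_cases hc : ∃ c ∈ verts t, side c = true
    · rw [h.pW_second ht hc hv hu, h.pW_second ht hc hw hu, ← h.chg_pN ht hv hw hu,
        chg_apply, chg_apply, map_sub sigmaL, sigmaL_eq (h.plane t ht hc w hw h1.2),
        ← h.comm t ht hc w hw v hv h1.2 h1.1, map_add sigmaL,
        sigmaL_eq (h.plane t ht hc v hv h1.1)]
    · rw [pW_first hc hv hu, pW_first hc hw hu, h.chg_pN ht hv hw hu]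

/-- The double is an affine complex, provided that the links are complete fans. -/
theorem Labels.isAffineComplex [DecidableEq W] (h : Labels T fold side ρ P)
    (hfan : ∀ w, IsFan (link T w) (pW ρ P fold side w))
    (hconn : ∀ v w : W, Relation.ReflTransGen
      (fun a b => ∃ t ∈ T, a ∈ verts t ∧ b ∈ verts t) v w) :
    IsAffineComplex T (pW ρ P fold side) :=
  ⟨h.center, hfan, h.trans, hconn⟩

end Double

end Pool.CX
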