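import Pool.Agent.Helper47.CX.Geo

/-!
# Project CX (MP_f22a19_gt): interface between the real point and the triangulation

The holonomy enters the construction only through finitely many LETTERS `A 0 = 1, A 1, ...,
A (k-1)` (affine maps of `ℝ³`), which are exact or certified real points: all that is used of them
is a finite list of relations `A i * A j = A l`, the fact that the letters between boundary vertices
commute with the reflection, and integer boxes for their entries.
-/

set_option autoImplicit false

namespace Pool.CX

open Pool.Agent.Helper66.AF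

/-- `x` lies in the interval `I` -/
def InI (I : ℤ × ℤ) (x : ℝ) : Prop := (I.1 : ℝ) ≤ x ∧ x ≤ (I.2 : ℝ)

/-- intervals for the coefficients of an affine function `a x + b y + c z + t` -/
structure Row where
  a : ℤ × ℤ
  b : ℤ × ℤ
  c : ℤ × ℤ
  t : ℤ × ℤ
  deriving DecidableEq

/-- `f` is an affine function whose coefficients, multiplied by `s`, lie in the intervals -/
def Row.Mem (R : Row) (s : ℝ) (f : E3 → ℝ) : Prop :=
  ∃ a b c t : ℝ, InI R.a (s * a) ∧ InI R.b (s * b) ∧ InI R.c (s * c) ∧ InI R.t (s * t) ∧
    ∀ x, f x = a * x 0 + b * x 1 + c * x 2 + t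

/-- intervals for the coefficients of an affine map -/
structure ABox where
  r0 : Row
  r1 : Row
  r2 : Row
  deriving DecidableEq

/-- all coefficients of the affine map `A`, multiplied by `s`, lie in the intervals -/
def ABox.Mem (B : ABox) (s : ℝ) (A : Aff3) : Prop :=
  B.r0.Mem s (fun x => A x 0) ∧ B.r1.Mem s (fun x => A x 1) ∧ B.r2.Mem s (fun x => A x 2)

/-- A real point: letters with the given relations, boundary letters and boxes. -/
structure RealPoint (k : ℕ) (rels : List (ℕ × ℕ × ℕ)) (bds : List ℕ) (box : ℕ → ABox)
    (s : ℝ) where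
  A : ℕ → Aff3
  zero : A 0 = 1
  rel : ∀ r ∈ rels, A r.1 * A r.2.1 = A r.2.2
  comm : ∀ i ∈ bds, ∀ x, A i (sigmaL x) = sigmaL (A i x)
  mem : ∀ i < k, (box i).Mem s (A i)

end Pool.CX
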