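import Pool.Agent.Helper45.CX.FanW
import Pool.Agent.Helper79.CX.Chk
import Pool.Agent.Helper69.CX.Line
import Pool.Agent.Helper47.CX.Asm2

/-!
# MP_f22a19_gt, project CX: the counterexample from the data

`T` is the list of the signed facets of the double on the codes `0, ..., n - 1`, `lab u u'` the
letter and `pos u` the position of a vertex of one copy, `fold` and `side` describe the double,
`R` is the real point and `D` the projective labels.
-/

set_option autoImplicit false

namespace Pool.CX

open Pool.Agent.Helper66.AF Helper69.CX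

theorem main_of_checks {n B bits bits' : ℕ} [NeZero n] {T : List (ST ℕ)} {ps : List ℕ}
    (h1 : chkComb n B bits T ps = true) (h2 : chkInj B bits' T = true)
    {k : ℕ} {rels : List (ℕ × ℕ × ℕ)} {bds : List ℕ} {box : ℕ → ABox} {S : ℤ}
    (R : RealPoint k rels bds box (S : ℝ)) (hS : 0 < S) (lab : ℕ → ℕ → ℕ) (pos : ℕ → Pt)
    (fold : ℕ → ℕ) (side : ℕ → Bool)
    (hlab : Labels ((TF n T).map orient) (fun v : Fin n => fold v.1) (fun v => side v.1)
      (fun u u' => R.A (lab u u')) (fun u => (pos u).val))
    (hfan : ∀ v < n, ∃ c, chkV n k S box lab pos fold side T v c = true)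
    (D : DData PL ℕ (Fin n) VP)
    (hg : ∀ t ∈ TF n T, ∀ i ∈ setT t, ∀ j ∈ setT t, ∀ l ∈ setT t, D.g i j * D.g j l = D.g i l)
    (hval : ((TF n T).map (fun t => (sg t.1 : ℝ) *
      D.F (tupT t 0, D.g (tupT t 0) (tupT t 0)) (tupT t 1, D.g (tupT t 0) (tupT t 1))
        (tupT t 2, D.g (tupT t 0) (tupT t 2)) (tupT t 3, D.g (tupT t 0) (tupT t 3)))).sum ≠ 0) :
    Counterexample := by
  have : Nonempty (Fin n) := ⟨0⟩
  obtain ⟨hT, -, hconn, -⟩ := comb_all h1 h2
  have hI : chkIncr n T = true := by
    unfold chkComb at h1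
    simp only [Bool.and_eq_true] at h1
    exact h1.1.1.1.2
  have hp := hlab.isAffineComplex
    (fans_of_chk hI (comb_of_chk h1) R hS lab pos fold side hfan) hconn
  exact counterexample_of hT hp VP_zero VP_bdd VP_cocycle D hg hval

end Pool.CX
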