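import Pool.Agent.Helper69.CX.FastAll
import Pool.Agent.Helper69.CX.Stars
import Pool.Agent.Helper93.CX.LabW
import Pool.Agent.Helper26.PM.Val
import Pool.Agent.Helper47.CX.Main

/-!
# MP_f22a19_gt, project CX: the counterexample from kernel checks

`L` is the list of the facets of the double with the indices of their faces, `Q` the list of the
stars and fan certificates of its vertices, `lab` the table of the letters, `pos` the positions of
the vertices of one copy, `mat` and `q` the projective matrices of the letters and positions of the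
vertices. The first `nB` of the `nU` vertices of one copy are the boundary vertices.
-/

set_option autoImplicit false

namespace Pool.CX

open Pool.Agent.Helper66.AF Helper69.CX
open Pool.Agent.Helper26.PM (VData)

/-- the star of a vertex and the certificate of its fan -/
abbrev SCert : Type := List (ℕ × ST ℕ) × VCert

/-- the test of the stars and the fans of the vertices `w, w + 1, ...` -/
def chkQ (E B ftab N n k : ℕ) (S : ℤ) (box : ℕ → ABox) (lab : ℕ → ℕ → ℕ) (pos : ℕ → Pt)
    (fold : ℕ → ℕ) (side : ℕ → Bool) : ℕ → List SCert → Bool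
  | _, [] => true
  | w, c :: Q => starOK E B ftab N w 0 c.1 &&
      chkVL n k S box lab pos fold side (linkN w (c.1.map Prod.snd)) w c.2 &&
      chkQ E B ftab N n k S box lab pos fold side (w + 1) Q

section

variable {E B ftab N n k : ℕ} {S : ℤ} {box : ℕ → ABox} {lab : ℕ → ℕ → ℕ} {pos : ℕ → Pt}
  {fold : ℕ → ℕ} {side : ℕ → Bool}

theorem chkQ_append {w : ℕ} {Q Q' : List SCert}
    (h : chkQ E B ftab N n k S box lab pos fold side w Q = true)
    (h' : chkQ E B ftab N n k S box lab pos fold side (w + Q.length) Q' = true) :
    chkQ E B ftab N n k S box lab pos fold side w (Q ++ Q') = true := by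
  induction Q generalizing w with
  | nil => simpa using h'
  | cons c Q ih =>
    rw [chkQ, Bool.and_eq_true] at h
    rw [List.cons_append, chkQ, Bool.and_eq_true]
    refine ⟨h.1, ih h.2 ?_⟩
    rw [List.length_cons] at h'
    rwa [show w + 1 + Q.length = w + (Q.length + 1) by omega]

theorem chkQ_spec {w : ℕ} {Q : List SCert}
    (h : chkQ E B ftab N n k S box lab pos fold side w Q = true) (i : ℕ) (hi : i < Q.length) :
    starOK E B ftab N (w + i) 0 Q[i].1 = true ∧
      chkVL n k S box lab pos fold side (linkN (w + i) (Q[i].1.map Prod.snd)) (w + i) Q[i].2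
        = true := by
  induction Q generalizing w i with
  | nil => simp at hi
  | cons c Q ih =>
    rw [chkQ, Bool.and_eq_true, Bool.and_eq_true] at h
    cases i with
    | zero => exact h.1
    | succ i =>
      have h1 := ih h.2 i (by simpa using hi)
      rw [show w + 1 + i = w + (i + 1) by omega] at h1
      exact h1

end

section

variable {n B W₀ tab₀ : ℕ} [NeZero n] {L : List Item} {ps : List ℕ}
  {nU nB K W B₁ tab itab : ℕ} {t : RT} {bds : List ℕ}
  {k : ℕ} {rels : List (ℕ × ℕ × ℕ)} {box : ℕ → ABox} {S : ℤ} {pos : ℕ → Pt}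
  {mat : ℕ → Pool.Agent.Helper68.BW.QM} {q : ℕ → Pool.Agent.Helper68.BW.QV}

theorem main_core (hcert : cert n B W₀ tab₀ L ps = true)
    (hinv : chkInv t.has W itab K = true)
    (hlab : chkLabE n nU nB (labI W B₁ tab itab) (edI K W B₁ tab) t.has (bdHas bds)
      (L.map toST) = true)
    (R : RealPoint k rels bds box (S : ℝ)) (ht : ∀ x ∈ t.toList, x ∈ rels)
    (hpos : ∀ u < nB, (pos u).z = 0)
    (hfan : ∀ w : Fin n, IsFan (link ((TF n (L.map toST)).map orient) w)
      (pW (fun u u' => R.A (labI W B₁ tab itab u u')) (fun u => (pos u).val)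
        (fun v : Fin n => foldN nU nB v.1) (fun v => sideN nU v.1) w))
    (hok : ∀ t ∈ L.map toST, (VData.mk nU nB (labI W B₁ tab itab) mat q).Ok n t)
    {p m : ℕ} (hval : (VData.mk nU nB (labI W B₁ tab itab) mat q).chkVal (L.map toST) p m = true)
    (hpm : p ≠ m) :
    Counterexample := by
  have : Nonempty (Fin n) := ⟨0⟩
  obtain ⟨hI, hC, hT, -, hconn, -⟩ := all_of_cert hcert
  have hlabels := labels_of_realPointE R ht hinv hlab (P := fun u => (pos u).val)
    (fun u hu => by simp [Pt.val, hpos u hu])
  exact counterexample_of hT (hlabels.isAffineComplex hfan hconn)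
    VP_zero VP_bdd VP_cocycle ((VData.mk nU nB (labI W B₁ tab itab) mat q).D n)
    (VData.hg _ n hok) (VData.hval _ n hok hval hpm)

/-- **The counterexample from kernel checks**, fans without stars. -/
theorem main_finalV (hcert : cert n B W₀ tab₀ L ps = true)
    (hinv : chkInv t.has W itab K = true)
    (hlab : chkLabE n nU nB (labI W B₁ tab itab) (edI K W B₁ tab) t.has (bdHas bds)
      (L.map toST) = true)
    (hR : Nonempty (RealPoint k rels bds box (S : ℝ))) (hS : 0 < S)
    (ht : ∀ x ∈ t.toList, x ∈ rels)
    (hpos : ∀ u < nB, (pos u).z = 0)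
    (hfan : ∀ v < n, ∃ c, chkV n k S box (labI W B₁ tab itab) pos (foldN nU nB) (sideN nU)
      (L.map toST) v c = true)
    (hok : ∀ t ∈ L.map toST, (VData.mk nU nB (labI W B₁ tab itab) mat q).Ok n t)
    {p m : ℕ} (hval : (VData.mk nU nB (labI W B₁ tab itab) mat q).chkVal (L.map toST) p m = true)
    (hpm : p ≠ m) :
    Counterexample := by
  obtain ⟨hI, hC, -⟩ := all_of_cert hcert
  obtain ⟨R⟩ := hR
  exact main_core hcert hinv hlab R ht hpos
    (fans_of_chk hI hC R hS _ pos (foldN nU nB) (sideN nU) hfan) hok hval hpm

/-- **The counterexample from kernel checks**, fans with stars. -/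
theorem main_final (hcert : cert n B W₀ tab₀ L ps = true)
    -- affine labels
    (hinv : chkInv t.has W itab K = true)
    (hlab : chkLabE n nU nB (labI W B₁ tab itab) (edI K W B₁ tab) t.has (bdHas bds)
      (L.map toST) = true)
    -- the real point
    (hR : Nonempty (RealPoint k rels bds box (S : ℝ))) (hS : 0 < S)
    (ht : ∀ x ∈ t.toList, x ∈ rels)
    -- positions
    (hpos : ∀ u < nB, (pos u).z = 0)
    -- stars and fans
    {E ftab : ℕ} (htab : chkTab E B ftab 0 (L.map toST) = true) {Q : List SCert}
    (hQ : chkQ E B ftab L.length n k S box (labI W B₁ tab itab) pos (foldN nU nB) (sideN nU) 0 Q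
      = true) (hlen : Q.length = n) (hsum : (Q.map fun c => c.1.length).sum = 4 * L.length)
    -- projective labels and value
    (hok : ∀ t ∈ L.map toST, (VData.mk nU nB (labI W B₁ tab itab) mat q).Ok n t)
    {p m : ℕ} (hval : (VData.mk nU nB (labI W B₁ tab itab) mat q).chkVal (L.map toST) p m = true)
    (hpm : p ≠ m) :
    Counterexample := by
  obtain ⟨hI, hC, -⟩ := all_of_cert hcert
  obtain ⟨R⟩ := hR
  have hnB : n ≤ B := by
    unfold cert at hcert
    simp only [Bool.and_eq_true] at hcert
    exact Nat.le_of_ble_eq_true hcert.1.1.1.1.1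
  have hLlen : (L.map toST).length = L.length := List.length_map _
  -- the stars
  have hstar := link_of_stars hnB hI htab
    (fun w => if h : w < Q.length then Q[w].1 else [])
    (by
      intro w hw
      rw [← hlen] at hw
      rw [dif_pos hw, hLlen]
      have := (chkQ_spec hQ w hw).1
      rwa [Nat.zero_add] at this)
    (by
      rw [hLlen, ← hsum, ← hlen, Finset.sum_range]
      have e : ∀ i : Fin Q.length,
          (if h : i.1 < Q.length then Q[i.1].1 else []).length = Q[i.1].1.length := by
        intro i
        rw [dif_pos i.2]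
      simp only [e]
      rw [← List.sum_ofFn]
      congr 1
      apply List.ext_getElem
      · simp
      · intro i h1 h2
        simp)
  refine main_core hcert hinv hlab R ht hpos ?_ hok hval hpm
  intro w
  have hw : w.1 < Q.length := by rw [hlen]; exact w.2
  have h1 := hstar w.1 w.2
  rw [dif_pos hw] at h1
  have h2 := (chkQ_spec hQ w.1 hw).2
  rw [Nat.zero_add] at h2
  exact fanWL hI hC R hS _ pos (foldN nU nB) (sideN nU) w _ _ h1 h2

end

end Pool.CX
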